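import Mathlib
import Pool.Agent.H82.PiW

set_option autoImplicit false

namespace Pool.Agent.Results.MP_110f0a_gt.KSpaceNotFrechet

open Set Filter Topology Pool.Agent.H82.PiW

theorem result : ∃ (X : Type) (_ : TopologicalSpace X), T35Space X ∧
    TopologicalSpace.IsTopologicalBasis {s : Set X | IsClopen s} ∧
    (∀ A : Set {f : X → Bool // Continuous f},
      (∀ K : Set {f : X → Bool // Continuous f}, IsCompact K →
        IsClosed ((Subtype.val : K → {f : X → Bool // Continuous f}) ⁻¹' A)) → IsClosed A) ∧
    ¬ FrechetUrysohnSpace {f : X → Bool // Continuous f} := by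
  classical
  refine ⟨D, inferInstance, inferInstance, TopologicalSpace.isTopologicalBasis_of_isOpen_of_nhds
    (fun _ h => h.isOpen) (fun a u ha _ => ⟨u, isClopen_discrete u, ha, subset_rfl⟩), ?_, ?_⟩
  · intro A hA
    have : CompactSpace {f : D → Bool // Continuous f} := by
      refine isCompact_iff_compactSpace.1 ?_
      have : {f : D → Bool | Continuous f} = univ :=
        eq_univ_of_forall fun _ => continuous_of_discreteTopology
      show IsCompact {f : D → Bool | Continuous f}
      rw [this]; exact isCompact_univ
    exact (Homeomorph.Set.univ _).isClosed_preimage.1 (hA univ isCompact_univ)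
  · intro h
    have h1 : (⟨fun _ => true, continuous_const⟩ : {f : D → Bool // Continuous f}) ∈
        closure {f | {x | f.1 x = true}.Finite} := by
      refine mem_closure_of_tendsto (b := (atTop : Filter (Finset D)))
        (f := fun F => ⟨fun x => decide (x ∈ F), continuous_of_discreteTopology⟩) ?_
        (Eventually.of_forall fun F => F.finite_toSet.subset fun x hx => by simpa using hx)
      rw [tendsto_subtype_rng, tendsto_pi_nhds]
      intro x
      refine tendsto_const_nhds.congr' ?_
      filter_upwards [eventually_ge_atTop {x}] with F hF
      simpa using hF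
    obtain ⟨u, hu, hl⟩ := h.closure_subset_seqClosure _ h1
    rw [tendsto_subtype_rng, tendsto_pi_nhds] at hl
    have hc : (univ : Set D).Countable := by
      refine (countable_iUnion fun n => (hu n).countable).mono fun x _ => ?_
      have := hl x
      rw [nhds_discrete, tendsto_pure] at this
      exact mem_iUnion.2 this.exists
    have := countable_univ_iff.1 hc
    exact not_sep inferInstance

end Pool.Agent.Results.MP_110f0a_gt.KSpaceNotFrechet
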