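import Mathlib
import Pool.Agent.H82.SeqD

set_option autoImplicit false

namespace Pool.Agent.Results.MP_110f0a_gt.SequentialFrechet

theorem result : ∀ (X : Type) [TopologicalSpace X] [T35Space X],
    TopologicalSpace.IsTopologicalBasis {s : Set X | IsClopen s} →
    SequentialSpace {f : X → Bool // Continuous f} →
    FrechetUrysohnSpace {f : X → Bool // Continuous f} :=
  fun _ _ _ hz _ => Pool.Agent.H82.SeqD.main hz

end Pool.Agent.Results.MP_110f0a_gt.SequentialFrechet
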